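import Pool.Agent.H88.MCR.Stmts2
import Pool.Agent.H86.MCR.OLD

/-!
# Board mcr (MP_ffb5eb), row STC

Replacing an edge by a path of length 3.
-/

set_option autoImplicit false

namespace Pool.MCR

section

variable {L : Type} [LinearOrder L]

theorem stc_lt {a b : L} (k m : ℤ) (h : a < b) : lp a k < lp b m := by
  unfold lp
  rw [Prod.Lex.toLex_lt_toLex]
  exact Or.inl h

theorem stc_KL {w c d : L} (i j k : ℤ) (h : KL w c d) : KL (lp w i) (lp c j) (lp d k) := by
  rcases h with ⟨h1, h2⟩ | ⟨h1, h2, h3⟩ | ⟨h1, h2, h3⟩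
  · exact Or.inl ⟨stc_lt _ _ h1, stc_lt _ _ h2⟩
  · exact Or.inr (Or.inl ⟨stc_lt _ _ h1, stc_lt _ _ h2, stc_lt _ _ h3⟩)
  · exact Or.inr (Or.inr ⟨stc_lt _ _ h1, stc_lt _ _ h2, stc_lt _ _ h3⟩)

theorem stc_KL1 {w c : L} (h : c ≠ w) : KL (lp w 0) (lp c 0) (lp c 1) := by
  have h1 : lp c 0 < lp c 1 := by
    unfold lp
    rw [Prod.Lex.toLex_lt_toLex]
    right
    simp
  rcases lt_or_gt_of_ne h with h2 | h2
  · exact Or.inr (Or.inr ⟨stc_lt _ _ h2, stc_lt _ _ h2, h1⟩)
  · exact Or.inr (Or.inl ⟨stc_lt _ _ h2, stc_lt _ _ h2, h1⟩)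

theorem stc_rev {n : ℕ} {D : Diag L} (hG : Good n D) {x y : ℕ} (hx : x < n) (hy : y < n)
    (hxy : x ≠ y) {β : List (Arc L)} (h : EX (D.A x y) β) : EX (D.A y x) β :=
  ex_rev (fun _ hA => hG.symA x hx y hy hxy _ _ _ hA) h

/-- It suffices to check one orientation of every edge. -/
theorem stc_sym {n : ℕ} {D : Diag L} (hG : Good n D) (R C : ℕ → ℕ → Prop)
    (hRC : ∀ x y, (R x y ∨ R y x) → C x y ∨ C y x)
    (hC : ∀ x < n, ∀ y < n, ∀ z < n, ∀ t < n, x ≠ y → z ≠ t → x ≠ z → x ≠ t → y ≠ z → y ≠ t →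
      C x y → C z t → EX (D.A x y) (D.A z t)) : Thr R n D := by
  intro x hx y hy z hz t ht hxy hzt hxz hxt hyz hyt h1 h2
  rcases hRC x y h1 with h3 | h3
  · rcases hRC z t h2 with h4 | h4
    · exact hC x hx y hy z hz t ht hxy hzt hxz hxt hyz hyt h3 h4
    · have h := hC x hx y hy t ht z hz hxy (Ne.symm hzt) hxt hxz hyt hyz h3 h4
      exact ex_symm.1 (stc_rev hG ht hz (Ne.symm hzt) (ex_symm.1 h))
  · rcases hRC z t h2 with h4 | h4
    · have h := hC y hy x hx z hz t ht (Ne.symm hxy) hzt hyz hyt hxz hxt h3 h4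
      exact stc_rev hG hy hx (Ne.symm hxy) h
    · have h := hC y hy x hx t ht z hz (Ne.symm hxy) (Ne.symm hzt) hyt hyz hxt hxz h3 h4
      exact stc_rev hG hy hx (Ne.symm hxy)
        (ex_symm.1 (stc_rev hG ht hz (Ne.symm hzt) (ex_symm.1 h)))

end

theorem stc_thm (hAR2 : AR2_S) (hRNK : RNK_S) (hCGD : CGD_S) (hFLP : FLP_S) (hCLU : CLU_S)
    (hCNG : CNG_S) (_hOLD : OLD_S) (hCLB : CLB_S) (_hKLT : KLT_S) (hKIT : KIT_S) : STC_S := by
  intro L _ n D T u v hT hG hThr hu hv huv hTuv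
  obtain ⟨L1, i1, D1, hG1, hT1, hF1, hF2⟩ := hAR2 L n D T u v hG hThr hu hv huv
  have hSvu : D1.S v u = true := hF1.1
  have hSuv : D1.S u v = false := by
    have h := hF2.1
    simpa [flip] using h
  obtain ⟨r, hr⟩ := hRNK L1 n D1 v hG1 hv
  have hGC := hCGD L1 n D1 v r hG1 hv hr
  obtain ⟨hc1, hc2, hc3, hc4⟩ := hCLU L1 n D1 v u r hG1 hv hu huv hr hSvu hSuv
  obtain ⟨g1, g2⟩ := hCNG L1 n D1 v u r hG1 hv hu huv hr
  obtain ⟨-, hold, -, -⟩ := hCLB L1 n D1 v r hv
  obtain ⟨k1, -, k3⟩ := hKIT L1 n D1 hG1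
  have hnuv : D1.nx u v ≠ D1.pos u := (k1 u hu v hv huv).2.1
  generalize hCe : clone D1 n v r = C at *
  -- the first cloning
  have hThrC : Thr (addE T n u) (n + 1) C := by
    apply stc_sym hGC (addE T n u)
      (fun x y => (x < n ∧ y < n ∧ (T x y ∨ T y x)) ∨ (x = n ∧ y = u))
    · rintro x y ((h | h) | (h | h))
      · exact Or.inl (Or.inl ⟨(hT _ _ h).1, (hT _ _ h).2, Or.inl h⟩)
      · exact Or.inl (Or.inr h)
      · exact Or.inl (Or.inl ⟨(hT _ _ h).2, (hT _ _ h).1, Or.inr h⟩)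
      · exact Or.inr (Or.inr h)
    · have key : ∀ z < n, ∀ t < n, z ≠ t → z ≠ u → t ≠ u → (T z t ∨ T t z) →
          EX (C.A n u) (C.A z t) := by
        intro z hz t ht hzt hzu htu h
        have hw : ∀ t < n, t ≠ v → t ≠ u → EX (C.A n u) (C.A v t) := by
          intro t ht htv htu
          apply g2 hSvu t ht htv htu
          by_cases h1 : D1.S v t = false
          · exact Or.inl h1
          · right
            exact hF1.2 t ht htv htu (by simpa using h1)
        by_cases hzv : z = v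
        · subst hzv
          exact hw t ht (Ne.symm hzt) htu
        · by_cases htv : t = v
          · subst htv
            exact ex_symm.1 (stc_rev hGC (by omega) (by omega) (Ne.symm hzt)
              (ex_symm.1 (hw z hz hzv hzu)))
          · exact g1 z hz t ht hzt hzv hzu htv htu
              (hT1 v hv u hu z hz t ht (Ne.symm huv) hzt (Ne.symm hzv) (Ne.symm htv)
                (Ne.symm hzu) (Ne.symm htu) hTuv.symm h)
      rintro x - y - z - t - hxy hzt hxz hxt hyz hyt (⟨hx, hy, h1⟩ | ⟨rfl, rfl⟩)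
        (⟨hz, ht, h2⟩ | ⟨h2, h3⟩)
      · rw [hold x hx y hy, hold z hz t ht, ((old_thm L1).1 _ _).2.2]
        exact hT1 x hx y hy z hz t ht hxy hzt hxz hxt hyz hyt h1 h2
      · subst h2 h3
        exact ex_symm.1 (key x hx y hy hxy hxt hyt h1)
      · exact key z hz t ht hzt (Ne.symm hyz) (Ne.symm hyt) h2
      · exact absurd h2.symm hxz
  -- the mirror image
  obtain ⟨hGF, hThrF⟩ := hFLP _ (n + 1) C (addE T n u) hGC hThrC
  have hFuv : (flip C).S u v = true := by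
    have h := (hc2 v hv (Ne.symm huv)).1
    simp [flip, h, hSuv]
  have hFun : (flip C).S u n = true := by simp [flip, hc3]
  have hnxv : (flip C).nx u v = lp (D1.nx u v) 0 := (hc2 v hv (Ne.symm huv)).2
  have hnxn : (flip C).nx u n = lp (D1.nx u v) 1 := hc4
  have hpos : (flip C).pos u = lp (D1.pos u) 0 := hc1
  have hK : ∀ t < n, t ≠ u → t ≠ v → (flip C).S u t = false ∨
      (KL (D1.pos u) (D1.nx u v) (D1.nx u t) ∧ (flip C).nx u t = lp (D1.nx u t) 0) := by
    intro t ht htu htv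
    by_cases h1 : (flip C).S u t = false
    · exact Or.inl h1
    · right
      refine ⟨?_, (hc2 t ht htu).2⟩
      have h2 : (flip D1).S u t = true := by
        have h3 := (hc2 t ht htu).1
        simpa [flip, h3] using h1
      exact hF2.2 t ht htu htv h2
  generalize hFe : flip C = F at *
  obtain ⟨r', hr'⟩ := hRNK _ (n + 1) F u hGF (by omega)
  have hGD := hCGD _ (n + 1) F u r' hGF (by omega) hr'
  obtain ⟨a1, a2⟩ := hCNG _ (n + 1) F u v r' hGF (by omega) (by omega) (Ne.symm huv) hr'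
  obtain ⟨b1, b2⟩ := hCNG _ (n + 1) F u n r' hGF (by omega) (by omega) (by omega) hr'
  obtain ⟨-, hold', -, -⟩ := hCLB _ (n + 1) F u r' (by omega)
  refine ⟨_, inferInstance, clone F (n + 1) u r', hGD, ?_⟩
  generalize hDe : clone F (n + 1) u r' = D' at *
  -- the edge from `n+1` to `v`
  have keyC : ∀ z < n + 1, ∀ t < n + 1, z ≠ t → z ≠ v → t ≠ v →
      (addE T n u z t ∨ addE T n u t z) → EX (D'.A (n + 1) v) (D'.A z t) := by
    intro z hz t ht hzt hzv htv h
    have hw : ∀ t < n + 1, t ≠ u → t ≠ v → EX (D'.A (n + 1) v) (D'.A u t) := by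
      intro t ht htu htv
      apply a2 hFuv t ht htu htv
      rcases Nat.lt_succ_iff_lt_or_eq.1 ht with h1 | h1
      · rcases hK t h1 htu htv with h2 | ⟨h2, h3⟩
        · exact Or.inl h2
        · right
          rw [hpos, hnxv, h3]
          exact stc_KL _ _ _ h2
      · right
        rw [h1, hpos, hnxv, hnxn]
        exact stc_KL1 hnuv
    by_cases hzu : z = u
    · subst hzu
      exact hw t ht (Ne.symm hzt) htv
    · by_cases htu : t = u
      · subst htu
        exact ex_symm.1 (stc_rev hGD (by omega) (by omega) (Ne.symm hzt)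
          (ex_symm.1 (hw z hz hzu hzv)))
      · refine a1 z hz t ht hzt hzu hzv htu htv
          (hThrF u (by omega) v (by omega) z hz t ht huv hzt (Ne.symm hzu) (Ne.symm htu)
            (Ne.symm hzv) (Ne.symm htv) ?_ h)
        rcases hTuv with h1 | h1
        · exact Or.inl (Or.inl h1)
        · exact Or.inr (Or.inl h1)
  -- the edge from `n+1` to `n`
  have keyB : ∀ z < n + 1, ∀ t < n + 1, z ≠ t → z ≠ n → t ≠ n → ¬ (z = u ∧ t = v) →
      ¬ (z = v ∧ t = u) → (addE T n u z t ∨ addE T n u t z) →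
      EX (D'.A (n + 1) n) (D'.A z t) := by
    intro z hz t ht hzt hzn htn hne1 hne2 h
    have hw : ∀ t < n, t ≠ u → t ≠ v → EX (D'.A (n + 1) n) (D'.A u t) := by
      intro t ht htu htv
      apply b2 hFun t (by omega) htu (by omega)
      rcases hK t ht htu htv with h2 | ⟨h2, h3⟩
      · exact Or.inl h2
      · right
        rw [hpos, hnxn, h3]
        exact stc_KL _ _ _ h2
    by_cases hzu : z = u
    · subst hzu
      exact hw t (by omega) (Ne.symm hzt) (fun h1 => hne1 ⟨rfl, h1⟩)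
    · by_cases htu : t = u
      · subst htu
        exact ex_symm.1 (stc_rev hGD (by omega) (by omega) (Ne.symm hzt)
          (ex_symm.1 (hw z (by omega) hzu (fun h1 => hne2 ⟨h1, rfl⟩))))
      · exact b1 z hz t ht hzt hzu hzn htu htn
          (hThrF u (by omega) n (by omega) z hz t ht (by omega) hzt (Ne.symm hzu) (Ne.symm htu)
            (Ne.symm hzn) (Ne.symm htn) (Or.inr (Or.inr ⟨rfl, rfl⟩)) h)
  apply stc_sym hGD (repE T n u v)
    (fun x y => (x < n + 1 ∧ y < n + 1 ∧ (addE T n u x y ∨ addE T n u y x) ∧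
      ¬ (x = u ∧ y = v) ∧ ¬ (x = v ∧ y = u)) ∨ (x = n + 1 ∧ y = n) ∨ (x = n + 1 ∧ y = v))
  · have hor : ∀ x y, repE T n u v x y →
        ((x < n + 1 ∧ y < n + 1 ∧ (addE T n u x y ∨ addE T n u y x) ∧
          ¬ (x = u ∧ y = v) ∧ ¬ (x = v ∧ y = u)) ∨ (x = n + 1 ∧ y = n) ∨
          (x = n + 1 ∧ y = v)) ∨ (y = n + 1 ∧ x = n) := by
      rintro x y (⟨h1, h2, h3⟩ | ⟨rfl, rfl⟩ | ⟨rfl, rfl⟩ | ⟨rfl, rfl⟩)
      · have h4 := hT _ _ h1
        exact Or.inl (Or.inl ⟨by omega, by omega, Or.inl (Or.inl h1), h2, h3⟩)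
      · exact Or.inl (Or.inl ⟨by omega, by omega, Or.inr (Or.inr ⟨rfl, rfl⟩), by omega,
          by omega⟩)
      · exact Or.inr ⟨rfl, rfl⟩
      · exact Or.inl (Or.inr (Or.inr ⟨rfl, rfl⟩))
    rintro x y (h | h)
    · rcases hor x y h with h1 | ⟨h1, h2⟩
      · exact Or.inl h1
      · exact Or.inr (Or.inr (Or.inl ⟨h1, h2⟩))
    · rcases hor y x h with h1 | ⟨h1, h2⟩
      · exact Or.inr h1
      · exact Or.inl (Or.inr (Or.inl ⟨h1, h2⟩))
  · rintro x - y - z - t - hxy hzt hxz hxt hyz hyt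
      (⟨hx, hy, h1, h2, h3⟩ | ⟨rfl, rfl⟩ | ⟨rfl, rfl⟩)
      (⟨hz, ht, h4, h5, h6⟩ | ⟨h5, h6⟩ | ⟨h5, h6⟩)
    · rw [hold' x hx y hy, hold' z hz t ht, ((old_thm (L1 ×ₗ ℤ)).1 _ _).2.2]
      exact hThrF x hx y hy z hz t ht hxy hzt hxz hxt hyz hyt h1 h4
    · subst h5 h6
      exact ex_symm.1 (keyB x hx y hy hxy hxt hyt h2 h3 h1)
    · subst h5 h6
      exact ex_symm.1 (keyC x hx y hy hxy hxt hyt h1)
    · exact keyB z hz t ht hzt (Ne.symm hyz) (Ne.symm hyt) h5 h6 h4
    · exact absurd h5.symm hxz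
    · exact absurd h5.symm hxz
    · exact keyC z hz t ht hzt (Ne.symm hyz) (Ne.symm hyt) h4
    · exact absurd h5.symm hxz
    · exact absurd h5.symm hxz

end Pool.MCR
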